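import Mathlib.LinearAlgebra.Eigenspace.Basic
import Mathlib.LinearAlgebra.Pi
import Mathlib.Tactic

/-!
# MP_89b943_al : a primitive axial algebra with a decomposable block

Over every field `F` with at least four elements (i.e. having `lam ≠ mu` outside `{0,1}`) the
four-dimensional commutative algebra with basis `a, y, c, b` and products
`a² = a, ay = lam y, ac = 0, y² = yc = c² = 0, b² = b, ba = y, by = c,
bc = (lam+mu) c - lam mu y` is a primitive axial algebra generated by the two primitive axes
`a, b`, and its block `I_a = span(a,y,c)` is the sum of the two proper ideals `span(a,y)` and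
`span(c)`.
-/

namespace Pool.Agent.Results.MP_89b943_al.DecomposableBlock

open Module

variable {F A : Type*} [Field F] [AddCommGroup A] [Module F A]

/-- The `A_S(a)` of the problem: the sum of the eigenspaces `A_ν(a) = {u | a u = ν u}`, `ν ∈ S`
(eigenspaces of a linear map are always independent, so the sum is direct). -/
def eig (mul : A →ₗ[F] A →ₗ[F] A) (a : A) (S : Set F) : Submodule F A :=
  ⨆ ν ∈ S, End.eigenspace (mul a) ν

/-- A fusion law: a set of eigenvalues containing `1` with a map `star` from pairs of elements of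
`S` to subsets of `S`. -/
structure FusionLaw (F : Type*) [Field F] where
  /-- the underlying set of eigenvalues -/
  carrier : Set F
  one_mem : (1 : F) ∈ carrier
  /-- the fusion rule -/
  star : carrier → carrier → Set carrier

/-- `a` is an axis for the fusion law `𝓕` in the algebra with product `mul`. -/
def IsAxis (mul : A →ₗ[F] A →ₗ[F] A) (𝓕 : FusionLaw F) (a : A) : Prop :=
  mul a a = a ∧ eig mul a 𝓕.carrier = ⊤ ∧
    ∀ ν ρ : 𝓕.carrier, ∀ u v : A, mul a u = (ν : F) • u → mul a v = (ρ : F) • v →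
      mul u v ∈ eig mul a (Subtype.val '' (𝓕.star ν ρ))

/-- `a` is a primitive axis: an axis with `A_1(a) = F a`. -/
def IsPrimitiveAxis (mul : A →ₗ[F] A →ₗ[F] A) (𝓕 : FusionLaw F) (a : A) : Prop :=
  IsAxis mul 𝓕 a ∧ ∀ u : A, mul a u = u ↔ ∃ t : F, u = t • a

/-- `(A, X)` is a primitive axial algebra for the fusion law `𝓕`: the product is commutative,
`X` consists of primitive axes, and every subalgebra containing `X` is all of `A`. -/
def IsPrimitiveAxialAlgebra (mul : A →ₗ[F] A →ₗ[F] A) (𝓕 : FusionLaw F) (X : Set A) : Prop :=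
  (∀ u v, mul u v = mul v u) ∧ (∀ a ∈ X, IsPrimitiveAxis mul 𝓕 a) ∧
    ∀ S : Submodule F A, (∀ u ∈ S, ∀ v ∈ S, mul u v ∈ S) → X ⊆ S → S = ⊤

/-- `J` is an ideal of the (commutative) algebra `B` (a subalgebra of `A`). -/
def IsIdealOf (mul : A →ₗ[F] A →ₗ[F] A) (B J : Submodule F A) : Prop :=
  J ≤ B ∧ ∀ u ∈ B, ∀ v ∈ J, mul u v ∈ J

/-- The block of `a`: the smallest ideal of `A` containing `a`. -/
def block (mul : A →ₗ[F] A →ₗ[F] A) (a : A) : Submodule F A :=
  sInf {J | IsIdealOf mul ⊤ J ∧ a ∈ J}

/-- The algebra `B` is decomposable: it is the sum of its proper ideals (ideals of the algebra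
`B`, not of `A`). -/
def Decomposable (mul : A →ₗ[F] A →ₗ[F] A) (B : Submodule F A) : Prop :=
  sSup {J | IsIdealOf mul B J ∧ J ≠ B} = B

/-! ### The example -/

/-- product of the example; coordinates with respect to `a, y, c, b` -/
def mulFun (l m : F) (u v : Fin 4 → F) : Fin 4 → F :=
  ![u 0 * v 0,
    l * (u 0 * v 1 + u 1 * v 0) + (u 3 * v 0 + u 0 * v 3) - l * m * (u 3 * v 2 + u 2 * v 3),
    (u 3 * v 1 + u 1 * v 3) + (l + m) * (u 3 * v 2 + u 2 * v 3),
    u 3 * v 3]

/-- product of the example as a bilinear map -/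
def mul4 (l m : F) : (Fin 4 → F) →ₗ[F] (Fin 4 → F) →ₗ[F] (Fin 4 → F) :=
  LinearMap.mk₂ F (mulFun l m)
    (by intro a b c; ext i; fin_cases i <;> simp [mulFun] <;> ring)
    (by intro a b c; ext i; fin_cases i <;> simp [mulFun] <;> ring)
    (by intro a b c; ext i; fin_cases i <;> simp [mulFun] <;> ring)
    (by intro a b c; ext i; fin_cases i <;> simp [mulFun] <;> ring)

@[simp] lemma mul4_apply (l m : F) (u v : Fin 4 → F) : mul4 l m u v = mulFun l m u v := rfl

/-- the axis `a` -/
def va : Fin 4 → F := ![1, 0, 0, 0]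
/-- the axis `b` -/
def vb : Fin 4 → F := ![0, 0, 0, 1]

/-- the fusion law on `{1, 0, l, m}` in which every fusion product is the whole set -/
def law (l m : F) : FusionLaw F where
  carrier := {1, 0, l, m}
  one_mem := by simp
  star := fun _ _ => Set.univ

lemma mem_eig_of (mul : A →ₗ[F] A →ₗ[F] A) (a u : A) (S : Set F) (ν : F) (hν : ν ∈ S)
    (h : mul a u = ν • u) : u ∈ eig mul a S := by
  have : u ∈ End.eigenspace (mul a) ν := by
    rw [End.mem_eigenspace_iff]; exact h
  exact (le_iSup₂_of_le (f := fun (ν : F) (_ : ν ∈ S) => End.eigenspace (mul a) ν) ν hν le_rfl) this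

lemma axis_a (l m : F) (hl0 : l ≠ 0) (hl1 : l ≠ 1) : IsPrimitiveAxis (mul4 l m) (law l m) va := by
  have htop : eig (mul4 l m) va ({1, 0, l, m} : Set F) = ⊤ := by
    rw [eq_top_iff]
    intro u _
    have hu : u = ![u 0, 0, 0, 0] + ![0, 0, u 2, 0] + ![0, u 1 + u 3 / l, 0, 0]
        + ![0, - (u 3 / l), 0, u 3] := by
      ext i; fin_cases i <;> simp
    rw [hu]
    refine add_mem (add_mem (add_mem ?_ ?_) ?_) ?_
    · refine mem_eig_of _ _ _ _ 1 (by simp) ?_
      ext i; fin_cases i <;> simp [mulFun, va]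
    · refine mem_eig_of _ _ _ _ 0 (by simp) ?_
      ext i; fin_cases i <;> simp [mulFun, va]
    · refine mem_eig_of _ _ _ _ l (by simp) ?_
      ext i; fin_cases i <;> simp [mulFun, va]
    · refine mem_eig_of _ _ _ _ 0 (by simp) ?_
      ext i; fin_cases i <;> simp [mulFun, va]
      field_simp; ring
  refine ⟨⟨?_, htop, ?_⟩, ?_⟩
  · ext i; fin_cases i <;> simp [mulFun, va]
  · intro ν ρ u v _ _
    have : (Subtype.val '' ((law l m).star ν ρ)) = ({1, 0, l, m} : Set F) := by
      change Subtype.val '' (Set.univ : Set (law l m).carrier) = _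
      rw [Set.image_univ, Subtype.range_coe]
      rfl
    rw [this, htop]
    trivial
  · intro u
    constructor
    · intro h
      refine ⟨u 0, ?_⟩
      have h1 := congrFun h 1
      have h2 := congrFun h 2
      have h3 := congrFun h 3
      simp [mulFun, va] at h1 h2 h3
      ext i; fin_cases i
      · simp [va]
      · simp [va]
        rw [← h3] at h1
        have : (l - 1) * u 1 = 0 := by linear_combination h1
        rcases mul_eq_zero.1 this with h | h
        · exact absurd (by linear_combination h) hl1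
        · exact h
      · simp [va, ← h2]
      · simp [va, ← h3]
    · rintro ⟨t, rfl⟩
      ext i; fin_cases i <;> simp [mulFun, va]

lemma axis_b (l m : F) (hl0 : l ≠ 0) (hl1 : l ≠ 1) (hm0 : m ≠ 0) (hm1 : m ≠ 1) (hlm : l ≠ m) :
    IsPrimitiveAxis (mul4 l m) (law l m) vb := by
  have hlm' : l - m ≠ 0 := sub_ne_zero.2 hlm
  have htop : eig (mul4 l m) vb ({1, 0, l, m} : Set F) = ⊤ := by
    rw [eq_top_iff]
    intro u _
    obtain ⟨t, ht⟩ : ∃ t, t = u 0 / (l * m) := ⟨_, rfl⟩
    have ht' : l * m * t = u 0 := by rw [ht]; field_simp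
    obtain ⟨z, hz⟩ : ∃ z, z = (- u 1 - l * t - m * u 2) / (l - m) := ⟨_, rfl⟩
    have hz' : (l - m) * z = - u 1 - l * t - m * u 2 := by rw [hz]; field_simp
    obtain ⟨x, hx⟩ : ∃ x, x = u 2 - t - z := ⟨_, rfl⟩
    have hu : u = ![0, 0, 0, u 3] + ![l * m * t, - (l + m) * t, t, 0] + ![0, - m * x, x, 0]
        + ![0, - l * z, z, 0] := by
      ext i; fin_cases i
      · simp [ht']
      · simp [hx]; linear_combination hz'
      · simp [hx]; ring
      · simp
    rw [hu]
    refine add_mem (add_mem (add_mem ?_ ?_) ?_) ?_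
    · refine mem_eig_of _ _ _ _ 1 (by simp) ?_
      ext i; fin_cases i <;> simp [mulFun, vb]
    · refine mem_eig_of _ _ _ _ 0 (by simp) ?_
      ext i; fin_cases i <;> simp [mulFun, vb]
      ring
    · refine mem_eig_of _ _ _ _ l (by simp) ?_
      ext i; fin_cases i <;> simp [mulFun, vb] <;> ring
    · refine mem_eig_of _ _ _ _ m (by simp) ?_
      ext i; fin_cases i <;> simp [mulFun, vb] <;> ring
  refine ⟨⟨?_, htop, ?_⟩, ?_⟩
  · ext i; fin_cases i <;> simp [mulFun, vb]
  · intro ν ρ u v _ _
    have : (Subtype.val '' ((law l m).star ν ρ)) = ({1, 0, l, m} : Set F) := by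
      change Subtype.val '' (Set.univ : Set (law l m).carrier) = _
      rw [Set.image_univ, Subtype.range_coe]
      rfl
    rw [this, htop]
    trivial
  · intro u
    constructor
    · intro h
      refine ⟨u 3, ?_⟩
      have h0 := congrFun h 0
      have h1 := congrFun h 1
      have h2 := congrFun h 2
      simp [mulFun, vb] at h0 h1 h2
      rw [← h0] at h1
      have hc : (l - 1) * ((m - 1) * u 2) = 0 := by linear_combination -h2 - h1
      have hu2 : u 2 = 0 := by
        rcases mul_eq_zero.1 hc with h | h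
        · exact absurd (by linear_combination h) hl1
        · rcases mul_eq_zero.1 h with h | h
          · exact absurd (by linear_combination h) hm1
          · exact h
      rw [hu2] at h1
      ext i; fin_cases i
      · simp [vb, ← h0]
      · simp [vb]; linear_combination -h1
      · simp [vb, hu2]
      · simp [vb]
    · rintro ⟨t, rfl⟩
      ext i; fin_cases i <;> simp [mulFun, vb]

lemma vec4 (u : Fin 4 → F) : u = u 0 • (![1,0,0,0] : Fin 4 → F) + u 1 • (![0,1,0,0] : Fin 4 → F)
    + u 2 • (![0,0,1,0] : Fin 4 → F) + u 3 • (![0,0,0,1] : Fin 4 → F) := by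
  ext i; fin_cases i <;> simp

lemma generates (l m : F) (S : Submodule F (Fin 4 → F))
    (hS : ∀ u ∈ S, ∀ v ∈ S, mul4 l m u v ∈ S) (ha : va ∈ S) (hb : vb ∈ S) : S = ⊤ := by
  have hy : (![0,1,0,0] : Fin 4 → F) ∈ S := by
    have := hS _ hb _ ha
    convert this using 1
    ext i; fin_cases i <;> simp [mulFun, va, vb]
  have hc : (![0,0,1,0] : Fin 4 → F) ∈ S := by
    have := hS _ hb _ hy
    convert this using 1
    ext i; fin_cases i <;> simp [mulFun, vb]
  rw [eq_top_iff]
  intro u _
  rw [vec4 u]
  exact add_mem (add_mem (add_mem (S.smul_mem _ ha) (S.smul_mem _ hy)) (S.smul_mem _ hc))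
    (S.smul_mem _ hb)

/-- The submodule `span(a,y,c)`. -/
def K : Submodule F (Fin 4 → F) where
  carrier := {u | u 3 = 0}
  add_mem' := by intro a b ha hb; simp_all
  zero_mem' := by simp
  smul_mem' := by intro t a ha; simp_all

lemma block_eq (l m : F) : block (mul4 l m) va = (K : Submodule F (Fin 4 → F)) := by
  apply le_antisymm
  · apply sInf_le
    refine ⟨⟨le_top, ?_⟩, ?_⟩
    · intro u _ v hv
      change v 3 = 0 at hv
      change mulFun l m u v 3 = 0
      simp [mulFun, hv]
    · change (va : Fin 4 → F) 3 = 0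
      simp [va]
  · apply le_sInf
    rintro J ⟨⟨_, hJ⟩, ha⟩ u hu
    change u 3 = 0 at hu
    have hy : (![0,1,0,0] : Fin 4 → F) ∈ J := by
      have := hJ vb trivial _ ha
      convert this using 1
      ext i; fin_cases i <;> simp [mulFun, va, vb]
    have hc : (![0,0,1,0] : Fin 4 → F) ∈ J := by
      have := hJ vb trivial _ hy
      convert this using 1
      ext i; fin_cases i <;> simp [mulFun, vb]
    rw [vec4 u, hu, zero_smul, add_zero]
    exact add_mem (add_mem (J.smul_mem _ ha) (J.smul_mem _ hy)) (J.smul_mem _ hc)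

/-- The submodule `span(a,y)`. -/
def J₁ : Submodule F (Fin 4 → F) where
  carrier := {u | u 2 = 0 ∧ u 3 = 0}
  add_mem' := by intro a b ha hb; simp_all
  zero_mem' := by simp
  smul_mem' := by intro t a ha; simp_all

/-- The submodule `span(c)`. -/
def J₂ : Submodule F (Fin 4 → F) where
  carrier := {u | u 0 = 0 ∧ u 1 = 0 ∧ u 3 = 0}
  add_mem' := by intro a b ha hb; simp_all
  zero_mem' := by simp
  smul_mem' := by intro t a ha; simp_all

lemma decomp (l m : F) : Decomposable (mul4 l m) (K : Submodule F (Fin 4 → F)) := by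
  apply le_antisymm
  · apply sSup_le
    rintro J ⟨⟨h, _⟩, _⟩
    exact h
  · have h1 : (J₁ : Submodule F (Fin 4 → F)) ∈ {J | IsIdealOf (mul4 l m) K J ∧ J ≠ K} := by
      refine ⟨⟨?_, ?_⟩, ?_⟩
      · rintro u ⟨_, h⟩; exact h
      · rintro u hu v ⟨hv2, hv3⟩
        change u 3 = 0 at hu
        change mulFun l m u v 2 = 0 ∧ mulFun l m u v 3 = 0
        simp [mulFun, hu, hv2, hv3]
      · intro h
        have : (![0,0,1,0] : Fin 4 → F) ∈ (K : Submodule F (Fin 4 → F)) := by
          change (![0,0,1,0] : Fin 4 → F) 3 = 0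
          simp
        rw [← h] at this
        have := this.1
        simp at this
    have h2 : (J₂ : Submodule F (Fin 4 → F)) ∈ {J | IsIdealOf (mul4 l m) K J ∧ J ≠ K} := by
      refine ⟨⟨?_, ?_⟩, ?_⟩
      · rintro u ⟨_, _, h⟩; exact h
      · rintro u hu v ⟨hv0, hv1, hv3⟩
        change u 3 = 0 at hu
        change mulFun l m u v 0 = 0 ∧ mulFun l m u v 1 = 0 ∧ mulFun l m u v 3 = 0
        simp [mulFun, hu, hv0, hv1, hv3]
      · intro h
        have : (![1,0,0,0] : Fin 4 → F) ∈ (K : Submodule F (Fin 4 → F)) := by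
          change (![1,0,0,0] : Fin 4 → F) 3 = 0
          simp
        rw [← h] at this
        have := this.1
        simp at this
    intro u hu
    change u 3 = 0 at hu
    have hu' : u = ![u 0, u 1, 0, 0] + ![0, 0, u 2, 0] := by
      ext i; fin_cases i <;> simp [hu]
    rw [hu']
    refine add_mem (le_sSup h1 ?_) (le_sSup h2 ?_)
    · exact ⟨by simp, by simp⟩
    · exact ⟨by simp, by simp, by simp⟩

/-- **Negative answer to Q1 of MP_89b943_al.**  Over any field `F` with two distinct elements
`l, m` outside `{0, 1}` (that is, any field with at least four elements) there is a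
four-dimensional primitive axial algebra, generated by two primitive axes `a, b`, for which the
block `I_a` is decomposable, i.e. the sum of the proper ideals of the algebra `I_a`. -/
theorem result (F : Type*) [Field F] (l m : F) (hl0 : l ≠ 0) (hl1 : l ≠ 1) (hm0 : m ≠ 0)
    (hm1 : m ≠ 1) (hlm : l ≠ m) :
    ∃ (mul : (Fin 4 → F) →ₗ[F] (Fin 4 → F) →ₗ[F] (Fin 4 → F)) (𝓕 : FusionLaw F)
      (a b : Fin 4 → F), 𝓕.carrier = {1, 0, l, m} ∧ IsPrimitiveAxialAlgebra mul 𝓕 {a, b} ∧
        Decomposable mul (block mul a) := by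
  refine ⟨mul4 l m, law l m, va, vb, rfl, ⟨?_, ?_, ?_⟩, ?_⟩
  · intro u v
    ext i; fin_cases i <;> simp [mulFun] <;> ring
  · intro x hx
    rcases hx with rfl | rfl
    · exact axis_a l m hl0 hl1
    · exact axis_b l m hl0 hl1 hm0 hm1 hlm
  · intro S hS hX
    exact generates l m S hS (hX (by simp)) (hX (by simp))
  · rw [block_eq]
    exact decomp l m

end Pool.Agent.Results.MP_89b943_al.DecomposableBlock
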